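import Mathlib
import Pool.Agent.H204R3.GP.Defs
import Pool.Agent.H204R3.GP.MTDefs
import Pool.Agent.W516.FourDefs
import Pool.Agent.W516.MT.Defs
import Pool.Agent.W516.MT.AllFinal

/-!
# Tate classes and Hodge classes on all powers of an abelian variety of any type, from relations of
# length four between the eigenvalues of one Frobenius element

Let `A` be any abelian variety over a number field `L` embedded in the complex numbers (there is no
condition on the endomorphisms: factors of type IV are allowed), `ℓ` a prime number and suppose that
`A` has good reduction at ONE place `v` prime to `ℓ`, with residue field of `q` elements, such that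

* the characteristic polynomial `P` of the Frobenius element at `v` has no multiple roots;
* for complex roots `a`, `b`, `c`, `d` of `P` with `a b c d = ζ q ^ 2`, `ζ` a root of unity, the four
  roots fall into two pairs with product `q`.

Then all Tate classes in all the spaces `(H^1)^{⊗ 2 m}(m)`, and so in the cohomology of all powers
`A ^ k`, are linear combinations of Hodge classes.  Together with the theorem of Deligne (Hodge
classes are Tate classes) this is the Mumford-Tate conjecture for `A` and all its powers.

In contrast to the results for abelian varieties without factors of type IV the Hodge classes need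
not be generated in degree two: for instance, for the abelian varieties of Weil type of dimension
greater than four the Weil classes do not contradict the hypotheses, and they are Hodge and Tate
classes that are not generated by divisor classes.  The Frobenius eigenvalues may have
multiplicative relations of length six and more (they must have such relations in these examples).

Idea of the proof, all steps of which are done in Lean: over an extension `Ω` of `ℚ_ℓ` that contains
the roots, the diagonal torus of the symplectic group normalizes the Lie algebra `𝔤` of the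
endomorphisms annihilating all Tate classes (because of the condition on four roots), the root
vectors of the normalizer are contained in `𝔤`, and an infinitesimal isometry commuting with
`End(A)` is the sum of an element of `𝔤` and a central element of `End(A) ⊗ Ω`.  The centre is
treated by the theorem on centres.

In the Lean statement `W` is `H_1(A, ℚ)`, `T` the tangent space at the origin and `per : W → T` the
inclusion, `ω₀` is the form given by a polarization; `k ⊗ W`, with `k = ℚ_ℓ`, is the rational Tate
module with the action `ρ` of the Galois group `Γ` and the Weil pairing `ω`; `χ` is the cyclotomic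
character and `γ` the Frobenius element.  The hypotheses `hss`, `hF` are the theorems of Faltings,
`hD` is the theorem of Deligne and `hC` the theorem on centres (the Mumford-Tate conjecture is true
for the centres; Vasiu, Ullmo-Yafaev).
-/

namespace Pool.Agent.Results.MP_6c781a_ag.FourTermAllTypes

open TensorProduct Pool.Agent.H204R3.GP Pool.Agent.W516.MTD Pool.Agent.W516.FT

/-- The Mumford-Tate conjecture for an abelian variety of any type, if one element of the Galois
group has distinct eigenvalues without nontrivial multiplicative relations of length four. -/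
theorem result (ℓ : ℕ) [Fact ℓ.Prime]
    -- the complex torus `A(ℂ)` with a polarization
    {W T : Type} [AddCommGroup W] [Module ℚ W] [FiniteDimensional ℚ W] [AddCommGroup T]
    [Module ℂ T] (per : W →+ T) (hper : IsRationalStructure per)
    (ω₀ : W →ₗ[ℚ] W →ₗ[ℚ] ℚ) (hω₀ : IsHodgeBilinear per ω₀)
    -- the Galois group, its action on the Tate module and the Weil pairing
    {Γ : Type} [Group Γ] (ρ : Representation ℚ_[ℓ] Γ (ℚ_[ℓ] ⊗[ℚ] W)) (χ : Γ →* ℚ_[ℓ])
    (ω : ℚ_[ℓ] ⊗[ℚ] W →ₗ[ℚ_[ℓ]] ℚ_[ℓ] ⊗[ℚ] W →ₗ[ℚ_[ℓ]] ℚ_[ℓ])
    (hωω : ∀ u v : W, ω ((1 : ℚ_[ℓ]) ⊗ₜ[ℚ] u) ((1 : ℚ_[ℓ]) ⊗ₜ[ℚ] v) = ((ω₀ u v : ℚ) : ℚ_[ℓ]))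
    (halt : ∀ v, ω v v = 0) (hnd : ∀ u, (∀ v, ω u v = 0) → u = 0)
    (hωρ : ∀ s u v, ω (ρ s u) (ρ s v) = χ s * ω u v)
    -- the theorems of Faltings and Deligne and the theorem on centres
    (hss : FiniteIndexSemisimple ρ) (hF : Faltings per ρ) (hD : Deligne per ρ χ)
    (hC : Centres per ρ χ)
    -- the Frobenius element
    (γ : Γ) (q : ℕ) (hχ : χ γ = q) (P : Polynomial ℚ) (hP : P.Separable)
    (hγ : (ρ γ).charpoly = P.map (algebraMap ℚ ℚ_[ℓ]))
    (hfour : OnlyTrivialRelationsOfLengthFour P q)
    (m : ℕ) (φ : MultilinearMap ℚ_[ℓ] (fun _ : Fin m × Fin 2 => ℚ_[ℓ] ⊗[ℚ] W) ℚ_[ℓ])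
    (hφ : IsTateTensor ρ χ m φ) : IsHodgeCombination per φ :=
  Pool.Agent.W516.MTM.mt_of_four per ρ χ ω₀ ω hω₀ (fun u v => by rw [hωω, eq_ratCast]) hωρ hD hper
    halt hnd hss hF hC γ hχ hP hγ hfour m φ hφ

end Pool.Agent.Results.MP_6c781a_ag.FourTermAllTypes
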