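import Pool.Agent.W547.GAL.MT

/-!
# The Mumford-Tate conjecture for the product of surfaces and an arbitrary abelian variety

Let `L` be a number field in `ℂ` with absolute Galois group `Γ`, let `S_0, ..., S_(r-1)` be smooth
projective surfaces over `L` with `b_1 = 0`, and `A` an arbitrary abelian variety over `L`.

Hodge side: `B` (structure `HS n`) is the polarised rational Hodge structure `T = ⊕ T_i`, where
`T_i` is the transcendental part of `H^2(S_i(ℂ), ℚ)(1)`, with Hodge numbers `(p_i, q_i, p_i)`,
and `W` (structure `HW w`) is the Hodge structure on `H_1(A(ℂ), ℚ)`, twisted to weight zero: a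
rational `l`-linear form on it which is alternating is a class in `H^l(A)`, and `W.IsHodge` says
that it is a Hodge class.

Galois side: `T` (structure `GR`) is the representation of `Γ` on `T ⊗ ℚ_ℓ`, with the same form
(`hQ`), the Lie algebra `L` of the image and the Sen operator; `G` (structure `GA`) consists of
the representation `ρ` on the Tate module `V_ℓ(A) = H_1(A) ⊗ ℚ_ℓ`, the cyclotomic character, the
Lie algebra `M` of the image of `Γ` in the automorphisms of `T ⊕ V_ℓ(A) ⊕ ℚ_ℓ(1)`, and the joint
Sen operator `(x, y, 1)`, `y² = y`.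

We assume (`HS.Big`, `GR.Big`) that the Hodge endomorphisms of `T` are rational scalars on the
`T_i`, that the endomorphisms of `T ⊗ ℚ_ℓ` commuting with an open subgroup of `Γ` are scalars on
the `T_i`, that the identity component of the Zariski closure of the image of `Γ` in
`GL(T ⊗ ℚ_ℓ)` is reductive (`GR.Red`, the unitary trick), that `p_i ≥ 2`, `p_i` and `q_i` are
coprime and `2 p_i^2 (p_i^2 + 1) < (q_i - 2 p_i) (q_i + p_i)`.

By Kuenneth and Poincare duality a class on `S_(a 1) × ... × S_(a m) × A` of degree `l` in `A` is
a form with `m` variables in the total cohomology `ℚ_ℓ^s ⊕ T` of the surfaces (`Fin s`: algebraic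
classes, `d` says to which surface such a class belongs) and `l` variables in `V_ℓ(A)`,
alternating in the latter; `IsTateX` says that it is invariant under an open subgroup of `Γ` (after
the twist by `ℚ_ℓ(e)` of the factor `A`, `e = l / 2`).  `hodgeX` is the space spanned over `ℚ_ℓ`
by the rational classes of this type which are Hodge classes, `hodgeA` the space spanned by the
Hodge classes in `H^l(A)`.

We prove: if the Tate classes in `H^l(A)(e)` are the `ℚ_ℓ`-combinations of Hodge classes of `A`
(`hA`), then the Tate classes on `S_(a 1) × ... × S_(a m) × A`, of degree `l` in `A`, are the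
`ℚ_ℓ`-combinations of Hodge classes, for all `m` and all `a 1, ..., a m`.

Since `A` is arbitrary it may be replaced by its powers.  So the Mumford-Tate conjecture, in the
form `H_(j,k) = T_(j,k)` for all powers and all degrees, holds for `Y = S_0 × ... × S_(r-1) × A`
(and for every product of powers of the `S_i` and of `A`) if and only if it holds for `A`; in
particular it holds for `Y` if it is known for `A`.
-/

open Matrix Finset Module

namespace Pool.Agent.Results.MP_6c781a_ag.SurfacesTimesAbelian

open Pool.Agent.W544.PG Pool.Agent.W547.GAL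

/-- The Mumford-Tate conjecture for the product of surfaces and an abelian variety. -/
theorem result {ℓ : ℕ} [Fact ℓ.Prime] {Γ : Type} [Group Γ] [TopologicalSpace Γ]
    {n r w s m l e : ℕ} (B : HS n) (T : GR ℚ_[ℓ] Γ n) (hQ : T.Q = B.Q.map fun z : ℚ => (z : ℚ_[ℓ]))
    (c : Fin n → Fin r) (p q : Fin r → ℕ) (hB : B.Big c p q) (hT : T.Big c p q)
    (hp : ∀ i, 2 ≤ p i) (W : HW w) (G : GA T w)
    (hA : ∀ β : (Fin l → Fin w) → ℚ_[ℓ],
      (G.IsTateA e β ∧ IsAltK β) ↔ β ∈ hodgeA ℚ_[ℓ] W l)
    (d : Fin s → Fin r) (a : Fin m → Fin r)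
    (t : (Fin m → Fin s ⊕ Fin n) → (Fin l → Fin w) → ℚ_[ℓ])
    (hta : ∀ J L, t J L ≠ 0 → ∀ j, Sum.elim d c (J j) = a j) (halt : ∀ J, IsAltK (t J)) :
    G.IsTateX e t ↔ t ∈ hodgeX ℚ_[ℓ] B W c d a l :=
  mt B hQ hB hT hp W G hA d a t hta halt

end Pool.Agent.Results.MP_6c781a_ag.SurfacesTimesAbelian
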